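import Pool.Agent.H29.ENR.Stmts3
import Pool.Agent.H89.ENR.AFF

/-!
# Board enr, row AFG: affine maps over a finite local ring with maximal ideal `(p)`
-/

set_option autoImplicit false

namespace Pool.ENR

open Polynomial

/-- Powers of a singular matrix over a ring `GRing`. -/
theorem afg_pow (hFLG : FLGStmt) (hLIR : LIRStmt) (R : Type) [CommRing R] (p b c : ℕ)
    [hp : Fact p.Prime] (hc : 1 ≤ c) (hR : GRing R p c) (n : Type) [Fintype n] [DecidableEq n]
    (hcard : Fintype.card n = p ^ b + 1) (M : Matrix n n R) (hM : ¬ IsUnit M.det) :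
    ∃ m t : ℕ, ¬ p ∣ m ∧ M ^ (t + m * p ^ (b + c - 1)) = M ^ t := by
  obtain ⟨hfin, hpc, hpc1, hloc⟩ := hR
  set I : Ideal R := Ideal.span {(p : R)} with hI
  have hmem : ∀ x : R, x ∈ I ↔ ∃ y, x = p * y := by
    intro x
    rw [hI, Ideal.mem_span_singleton]
    exact ⟨fun ⟨y, hy⟩ => ⟨y, hy⟩, fun ⟨y, hy⟩ => ⟨y, hy⟩⟩
  have h1I : (1 : R) ∉ I := by
    intro h
    obtain ⟨y, hy⟩ := (hmem 1).1 h
    apply hpc1
    have h2 : (1 : R) = 0 := by
      calc (1 : R) = 1 ^ c := (one_pow c).symm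
        _ = (p * y) ^ c := by rw [← hy]
        _ = 0 := by rw [mul_pow, hpc, zero_mul]
    calc (p : R) ^ (c - 1) = (p : R) ^ (c - 1) * 1 := (mul_one _).symm
      _ = 0 := by rw [h2, mul_zero]
  have hmax : I.IsMaximal := by
    rw [Ideal.isMaximal_iff]
    refine ⟨h1I, fun J x _ hxI hxJ => ?_⟩
    rcases hloc x with hx | hx
    · obtain ⟨v, hv⟩ := hx
      have h2 : (↑v⁻¹ : R) * x ∈ J := J.mul_mem_left _ hxJ
      rw [← hv, Units.inv_mul] at h2
      exact h2
    · exact absurd ((hmem x).2 hx) hxI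
  let _ : Field (R ⧸ I) := Ideal.Quotient.field I
  set ψ : R →+* (R ⧸ I) := Ideal.Quotient.mk I with hψ
  have hψ0 : ∀ x : R, ψ x = 0 ↔ ∃ y, x = p * y := by
    intro x
    rw [hψ, Ideal.Quotient.eq_zero_iff_mem, hmem]
  have hpF : (p : R ⧸ I) = 0 := by
    rw [← map_natCast ψ, hψ0]
    exact ⟨1, (mul_one _).symm⟩
  have hch : CharP (R ⧸ I) p := (CharP.charP_iff_prime_eq_zero hp.out).2 hpF
  have hfinF : Finite (R ⧸ I) := Finite.of_surjective ψ Ideal.Quotient.mk_surjective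
  set M' : Matrix n n (R ⧸ I) := ψ.mapMatrix M with hM'
  have hdet : M'.det = 0 := by
    rw [hM', ← RingHom.map_det, hψ0]
    rcases hloc M.det with h | h
    · exact absurd h hM
    · exact h
  set χ := M'.charpoly with hχ
  have hmon : χ.Monic := M'.charpoly_monic
  have hdeg : χ.natDegree = p ^ b + 1 := by
    rw [hχ, M'.charpoly_natDegree_eq_dim, hcard]
  have hc0 : χ.coeff 0 = 0 := by
    have h3 := M'.det_eq_sign_charpoly_coeff
    rw [hdet] at h3
    have h4 : ((-1 : R ⧸ I)) ^ Fintype.card n ≠ 0 := pow_ne_zero _ (neg_ne_zero.2 one_ne_zero)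
    rcases mul_eq_zero.1 h3.symm with h5 | h5
    · exact absurd h5 h4
    · exact h5
  have hX : X ∣ χ := by rw [X_dvd_iff, hc0]
  obtain ⟨g, hg⟩ := hX
  have hgm : g.Monic := monic_X.of_mul_monic_left (by rw [← hg]; exact hmon)
  have hgd : g.natDegree = p ^ b := by
    have h3 := monic_X.natDegree_mul hgm
    rw [← hg, hdeg, natDegree_X] at h3
    omega
  obtain ⟨m, hm, hdvd⟩ := hFLG (R ⧸ I) p g hgm
  rw [hgd] at hdvd
  have hexp : (X * (X ^ m - 1) : (R ⧸ I)[X]) ^ (p ^ b) =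
      X ^ (p ^ b) * (X ^ (m * p ^ b) - 1) := by
    rw [mul_pow, sub_pow_char_pow, one_pow, ← pow_mul]
  rw [hexp] at hdvd
  obtain ⟨q, hq⟩ := hdvd
  have hq2 : χ * q = X ^ (p ^ b + 1) * (X ^ (m * p ^ b) - 1) := by
    rw [hg, mul_assoc, ← hq]
    ring
  have hM0 : M' ^ (p ^ b + 1) * (M' ^ (m * p ^ b) - 1) = 0 := by
    have h5 := congrArg (aeval M') hq2
    rw [map_mul, hχ, Matrix.aeval_self_charpoly, zero_mul, map_mul, map_sub, map_pow, map_pow,
      aeval_X, map_one] at h5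
    exact h5.symm
  have hM1 : ψ.mapMatrix (M ^ (p ^ b + 1) * (M ^ (m * p ^ b) - 1)) = 0 := by
    rw [map_mul, map_sub, map_pow, map_pow, map_one]
    exact hM0
  have hent : ∀ i j, ∃ y, (M ^ (p ^ b + 1) * (M ^ (m * p ^ b) - 1)) i j = p * y := by
    intro i j
    rw [← hψ0]
    exact congrFun (congrFun hM1 i) j
  choose Y hY using hent
  have hpM : ((p : ℕ) : Matrix n n R) ^ c = 0 := by
    rw [← map_natCast (Matrix.scalar n) p, ← map_pow, hpc, map_zero]
  obtain ⟨t', ht'⟩ := hLIR (Matrix n n R) p c M (p ^ b + 1) (m * p ^ b) hp.out hc hpM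
    ⟨Matrix.of Y, by
      ext i j
      have h7 : ((p : ℕ) : Matrix n n R) * Matrix.of Y = p • Matrix.of Y :=
        (nsmul_eq_mul _ _).symm
      rw [hY, h7]
      change _ = p • Y i j
      rw [nsmul_eq_mul]⟩
  refine ⟨m, t', hm, ?_⟩
  rw [mul_assoc, ← pow_add] at ht'
  have h6 : b + (c - 1) = b + c - 1 := by omega
  rw [h6] at ht'
  exact ht'

/-- An affine map with a singular linear part. -/
theorem afg_thm (hFLG : FLGStmt) (hLIR : LIRStmt) : AFGStmt := by
  intro R _ p b c hp hc hR A u z hz hAz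
  obtain ⟨A₀, hA₀⟩ : ∃ A₀ : Matrix (Fin (p ^ b)) (Fin (p ^ b)) R,
      ∀ v, A₀.mulVec v = A v := ⟨LinearMap.toMatrix' A, fun v => LinearMap.toMatrix'_mulVec A v⟩
  have hdet : ¬ IsUnit (AFFAux.mat A₀ u).det := by
    intro hu
    have h1 : (AFFAux.mat A₀ u).mulVec (Sum.elim z (fun _ => (0 : R))) = 0 := by
      rw [AFFAux.mat_mulVec, hA₀, hAz, zero_smul, add_zero]
      funext i
      rcases i with i | i <;> rfl
    have h2 := congrArg (fun w => (AFFAux.mat A₀ u)⁻¹.mulVec w) h1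
    simp only [Matrix.mulVec_mulVec, Matrix.nonsing_inv_mul _ hu, Matrix.one_mulVec,
      Matrix.mulVec_zero] at h2
    apply hz
    funext i
    exact congrFun h2 (Sum.inl i)
  obtain ⟨m, t, hm, hM⟩ := afg_pow hFLG hLIR R p b c hc hR (Fin (p ^ b) ⊕ Unit) (by simp)
    (AFFAux.mat A₀ u) hdet
  refine ⟨m, t, hm, fun v => ?_⟩
  have h3 : (fun v => A v + u) = (fun v => A₀.mulVec v + u) := by
    funext v
    rw [hA₀]
  rw [h3]
  have h4 := congrArg (fun N => N.mulVec (Sum.elim v (fun _ => (1 : R)))) hM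
  simp only [AFFAux.mat_pow_mulVec] at h4
  funext i
  exact congrFun h4 (Sum.inl i)

end Pool.ENR
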