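import Pool.Agent.H29.ENR.Stmts

/-! Board enr, row PRD: from the law of a group to the law of twisted sequences in a component. -/

set_option autoImplicit false

namespace Pool.ENR

open Pool.Agent.H81.ENG

theorem prd_thm : PRDStmt := by
  intro G _ y S k hk hD hcen hyk hnot α hα d hL
  have hcomm1 : ∀ i j, i < j → j < k → ∀ s ∈ S, ∀ t ∈ S,
      Commute (y ^ i * s * (y ^ i)⁻¹) (y ^ j * t * (y ^ j)⁻¹) := by
    intro i j hij hj s hs t ht
    have h1 := hnot (j - i) (by omega) (by omega)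
    rcases hD (y ^ (j - i)) with h2 | h2
    · exact absurd h2 h1
    · have h3 := h2 t ht s hs
      have h4 : y ^ j = y ^ i * y ^ (j - i) := by rw [← pow_add]; congr 1; omega
      rw [h4, Commute, SemiconjBy]
      calc y ^ i * s * (y ^ i)⁻¹ * (y ^ i * y ^ (j - i) * t * (y ^ i * y ^ (j - i))⁻¹)
          = y ^ i * (s * (y ^ (j - i) * t * (y ^ (j - i))⁻¹)) * (y ^ i)⁻¹ := by group
        _ = y ^ i * ((y ^ (j - i) * t * (y ^ (j - i))⁻¹) * s) * (y ^ i)⁻¹ := by rw [h3]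
        _ = _ := by group
  have hcommT : ∀ i < k, ∀ j < k, i ≠ j → ∀ s ∈ S, ∀ t ∈ S,
      Commute (y ^ i * s * (y ^ i)⁻¹) (y ^ j * t * (y ^ j)⁻¹) := by
    intro i hi j hj hij s hs t ht
    rcases lt_or_gt_of_ne hij with h | h
    · exact hcomm1 i j h hj s hs t ht
    · exact (hcomm1 j i h hi t ht s hs).symm
  let sl : TSq α k → ℕ → G := fun ξ i => y ^ i * (((ξ : ℤ → S) (i : ℤ) : S) : G) * (y ^ i)⁻¹
  have hslc : ∀ ξ η, ∀ i < k, ∀ j < k, i ≠ j → Commute (sl ξ i) (sl η j) :=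
    fun ξ η i hi j hj hij => hcommT i hi j hj hij _ ((ξ : ℤ → S) i).2 _ ((η : ℤ → S) j).2
  let Θ : TSq α k →* G :=
    { toFun := fun ξ => pr (sl ξ) k
      map_one' := by
        have h1 : ∀ n, pr (sl 1) n = 1 := by
          intro n
          induction n with
          | zero => rfl
          | succ n ih =>
            show pr (sl 1) n * sl 1 n = 1
            rw [ih, one_mul]
            show y ^ n * (((1 : ℤ → S) (n : ℤ) : S) : G) * (y ^ n)⁻¹ = 1
            rw [Pi.one_apply, OneMemClass.coe_one, mul_one, mul_inv_cancel]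
        exact h1 k
      map_mul' := by
        intro ξ η
        show pr (sl (ξ * η)) k = pr (sl ξ) k * pr (sl η) k
        rw [← pr_mul (hslc ξ η)]
        congr 1
        funext i
        show y ^ i * ((((ξ : ℤ → S) (i : ℤ) * (η : ℤ → S) (i : ℤ) : S)) : G) * (y ^ i)⁻¹ =
          (y ^ i * (((ξ : ℤ → S) (i : ℤ) : S) : G) * (y ^ i)⁻¹) *
          (y ^ i * (((η : ℤ → S) (i : ℤ) : S) : G) * (y ^ i)⁻¹)
        rw [Subgroup.coe_mul]
        group }
  have hΘ : ∀ ξ, Θ ξ = pr (sl ξ) k := fun _ => rfl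
  refine SL.of_inj (s' := MulAut.conj y⁻¹) Θ ?_ ?_ hL
  · -- injective
    rw [injective_iff_map_eq_one]
    intro ξ hξ
    rw [hΘ] at hξ
    have h1 : ∀ j : ℕ, j < k → (ξ : ℤ → S) (j : ℤ) = 1 := by
      intro j hj
      apply Subtype.ext
      apply hcen _ ((ξ : ℤ → S) j).2
      intro s hs
      have h3 := pr_eq_one (sl ξ) k j hj hξ (y ^ j * s * (y ^ j)⁻¹)
        (fun i hi hij => hcommT j hj i hi hij.symm s hs _ ((ξ : ℤ → S) i).2)
      have h4 : (y ^ j)⁻¹ * ((y ^ j * s * (y ^ j)⁻¹) *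
          (y ^ j * (((ξ : ℤ → S) (j : ℤ) : S) : G) * (y ^ j)⁻¹)) * y ^ j =
        (y ^ j)⁻¹ * ((y ^ j * (((ξ : ℤ → S) (j : ℤ) : S) : G) * (y ^ j)⁻¹) *
          (y ^ j * s * (y ^ j)⁻¹)) * y ^ j :=
        congrArg (fun g => (y ^ j)⁻¹ * g * y ^ j) h3.eq
      calc s * (((ξ : ℤ → S) (j : ℤ) : S) : G) = (y ^ j)⁻¹ * ((y ^ j * s * (y ^ j)⁻¹) *
            (y ^ j * (((ξ : ℤ → S) (j : ℤ) : S) : G) * (y ^ j)⁻¹)) * y ^ j := by group
        _ = (y ^ j)⁻¹ * ((y ^ j * (((ξ : ℤ → S) (j : ℤ) : S) : G) * (y ^ j)⁻¹) *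
            (y ^ j * s * (y ^ j)⁻¹)) * y ^ j := h4
        _ = (((ξ : ℤ → S) (j : ℤ) : S) : G) * s := by group
    have htw : ∀ i : ℤ, (ξ : ℤ → S) (i + k) = α ((ξ : ℤ → S) i) := ξ.2
    have hup : ∀ i : ℤ, (ξ : ℤ → S) i = 1 → (ξ : ℤ → S) (i + k) = 1 := by
      intro i hi
      rw [htw, hi, map_one]
    have hdn : ∀ i : ℤ, (ξ : ℤ → S) i = 1 → (ξ : ℤ → S) (i - k) = 1 := by
      intro i hi
      have h2 := htw (i - k)
      rw [sub_add_cancel, hi] at h2
      exact (MulEquiv.map_eq_one_iff α).1 h2.symm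
    have hall : ∀ (r n : ℤ), (ξ : ℤ → S) r = 1 → (ξ : ℤ → S) (r + k * n) = 1 := by
      intro r n hr
      induction n using Int.induction_on with
      | zero => rw [mul_zero, add_zero]; exact hr
      | succ n ih =>
        have h2 := hup _ ih
        have h3 : r + (k : ℤ) * (n : ℤ) + k = r + k * (n + 1) := by ring
        rwa [h3] at h2
      | pred n ih =>
        have h2 := hdn _ ih
        have h3 : r + (k : ℤ) * (-(n : ℤ)) - k = r + k * (-n - 1) := by ring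
        rwa [h3] at h2
    apply Subtype.ext
    funext i
    have hkz : (k : ℤ) ≠ 0 := by exact_mod_cast hk.ne'
    have hge : 0 ≤ i % k := Int.emod_nonneg _ hkz
    have hlt : i % k < k := Int.emod_lt_of_pos _ (by exact_mod_cast hk)
    have h8 : (((i % k).toNat : ℕ) : ℤ) = i % k := Int.toNat_of_nonneg hge
    have h9 := h1 (i % k).toNat (by omega)
    rw [h8] at h9
    have h10 := hall (i % k) (i / k) h9
    rw [Int.emod_add_mul_ediv] at h10
    exact h10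
  · -- equivariance
    intro ξ
    rw [hΘ, hΘ]
    obtain ⟨n, rfl⟩ : ∃ n, k = n + 1 := ⟨k - 1, by omega⟩
    have h1 : MulAut.conj y⁻¹ (pr (sl ξ) (n + 1)) = y⁻¹ * pr (sl ξ) (n + 1) * y := by
      rw [MulAut.conj_apply, inv_inv]
    rw [h1, pr_conj, pr_shift (fun i => y⁻¹ * sl ξ i * y)]
    have h2 : (fun i => y⁻¹ * sl ξ (i + 1) * y) = sl (tsh α (n + 1) ξ) := by
      funext i
      show y⁻¹ * (y ^ (i + 1) * (((ξ : ℤ → S) ((i + 1 : ℕ) : ℤ) : S) : G) * (y ^ (i + 1))⁻¹) * y =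
        y ^ i * (((ξ : ℤ → S) ((i : ℤ) + 1) : S) : G) * (y ^ i)⁻¹
      rw [pow_succ' y i]
      push_cast
      group
    have h2' : (fun i => (fun i => y⁻¹ * sl ξ i * y) (i + 1)) = sl (tsh α (n + 1) ξ) := h2
    rw [h2']
    have h3 : y⁻¹ * sl ξ 0 * y = sl (tsh α (n + 1) ξ) n := by
      have h5 : (ξ : ℤ → S) ((n : ℤ) + 1) = α ((ξ : ℤ → S) 0) := by
        have h6 := ξ.2 0
        have h7 : (0 : ℤ) + ((n + 1 : ℕ) : ℤ) = (n : ℤ) + 1 := by push_cast; ring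
        rw [h7] at h6
        exact h6
      show y⁻¹ * (y ^ 0 * (((ξ : ℤ → S) ((0 : ℕ) : ℤ) : S) : G) * (y ^ 0)⁻¹) * y =
        y ^ n * (((ξ : ℤ → S) ((n : ℤ) + 1) : S) : G) * (y ^ n)⁻¹
      rw [h5, hα, pow_zero, Nat.cast_zero, pow_succ]
      group
    show pr (sl (tsh α (n + 1) ξ)) n * sl (tsh α (n + 1) ξ) n =
      y⁻¹ * sl ξ 0 * y * pr (sl (tsh α (n + 1) ξ)) n
    rw [h3]
    have h4 : Commute (sl (tsh α (n + 1) ξ) n) (pr (sl (tsh α (n + 1) ξ)) n) :=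
      pr_comm (fun i hi => hslc _ _ n (by omega) i (by omega) (by omega))
    exact h4.eq.symm

end Pool.ENR
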