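import Pool.Agent.H14.ENR.Stmts4

/-! Row SWF of board enr. -/

set_option autoImplicit false

namespace Pool.ENR

open Pool.Agent.H55.NEU

namespace SWF

variable {F : Type} [Field F]

theorem ee_uu (c : Fˣ) (φ : F ≃+* F) (x : F) : ee c φ (pr (uu x)) = pr (uu (c * φ x)) := by
  rw [ee_pr, EE_apply]
  congr 1
  unfold uu
  apply mk2_congr
  · exact map_one φ
  · rfl
  · change ((c⁻¹ : Fˣ) : F) * φ 0 = 0
    rw [map_zero, mul_zero]
  · exact map_one φ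

theorem ee_vv (c : Fˣ) (φ : F ≃+* F) (x : F) :
    ee c φ (pr (vv x)) = pr (vv (((c⁻¹ : Fˣ) : F) * φ x)) := by
  rw [ee_pr, EE_apply]
  congr 1
  unfold vv
  apply mk2_congr
  · exact map_one φ
  · change (c : F) * φ 0 = 0
    rw [map_zero, mul_zero]
  · rfl
  · exact map_one φ

/-- an automorphism which maps `UU F` into itself preserves it -/
theorem iff_of_le [Finite F] {β : MulAut (PS F)} (h : ∀ x : F, β (pr (uu x)) ∈ UU F) :
    ∀ x, x ∈ UU F ↔ β x ∈ UU F := by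
  have h2 : (UU F).map β.toMonoidHom = UU F := by
    apply Subgroup.eq_of_le_of_card_ge
    · rintro _ ⟨_, ⟨x, rfl⟩, rfl⟩
      exact h x
    · rw [Nat.card_congr ((UU F).equivMapOfInjective _ β.injective).toEquiv.symm]
  intro x
  constructor
  · rintro ⟨y, rfl⟩
    exact h y
  · intro hx
    rw [← h2] at hx
    obtain ⟨y, hy, hyx⟩ := hx
    have h3 : y = x := β.injective hyx
    rw [← h3]
    exact hy

theorem conj_pr (M N : SL2 F) : MulAut.conj (pr M) (pr N) = pr (M * N * M⁻¹) := by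
  rw [MulAut.conj_apply, map_mul, map_mul, map_inv]

end SWF

open SWF in
theorem swf_thm : SWFStmt := by
  intro F _ _ σ hσ2 hσ1
  obtain ⟨g, c, hgc⟩ := fld_spec σ
  obtain ⟨M, rfl⟩ := pr_surj g
  set φ : F ≃+* F := fld σ with hφ
  have hM : M 1 0 ≠ 0 := by
    intro h0
    apply hσ1
    apply iff_of_le
    intro x
    rw [hgc, MulAut.mul_apply, ee_uu, conj_pr, conj_uu, pr_mem_UU]
    simp only [mk2_00, mk2_10, mk2_11, h0]
    constructor <;> ring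
  obtain ⟨b, hb⟩ : ∃ b : F, b * M 1 0 = -(M 0 0) := ⟨-(M 0 0) / M 1 0, by field_simp⟩
  -- the new matrix
  obtain ⟨M', hM'⟩ : ∃ M' : SL2 F, M' = uu b * M * uu (c * φ (-b)) := ⟨_, rfl⟩
  have hconj : MulAut.conj (pr (uu b)) * σ * (MulAut.conj (pr (uu b)))⁻¹ =
      MulAut.conj (pr M') * ee c φ := by
    have h1 : (MulAut.conj (pr (uu b)))⁻¹ = MulAut.conj (pr (uu (-b))) := by
      rw [← map_inv, ← map_inv, uu_inv]
    rw [h1, hgc, mul_assoc, mul_assoc, conj_comm, ee_uu, ← mul_assoc, ← mul_assoc, ← map_mul,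
      ← map_mul, ← map_mul, ← map_mul, ← hM']
  have h00 : M' 0 0 = 0 := by
    rw [hM', mul_00, mul_00, mul_01]
    change (1 * M 0 0 + b * M 1 0) * 1 + (1 * M 0 1 + b * M 1 1) * 0 = 0
    linear_combination hb
  have h10 : M' 1 0 = M 1 0 := by
    rw [hM', mul_10, mul_10, mul_11]
    change (0 * M 0 0 + 1 * M 1 0) * 1 + (0 * M 0 1 + 1 * M 1 1) * 0 = M 1 0
    ring
  obtain ⟨γ, hγ⟩ : ∃ γ : Fˣ, (γ : F) = M 1 0 := ⟨Units.mk0 _ hM, rfl⟩
  rw [← hγ] at h10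
  have hd := sl_det M'
  rw [h00, h10, zero_mul, zero_sub] at hd
  have hγi : (γ : F) * ((γ⁻¹ : Fˣ) : F) = 1 := Units.mul_inv γ
  have h01 : M' 0 1 = -((γ⁻¹ : Fˣ) : F) := by
    linear_combination (-((γ⁻¹ : Fˣ) : F)) * hd - M' 0 1 * hγi
  set τ : MulAut (PS F) := MulAut.conj (pr (uu b)) * σ * (MulAut.conj (pr (uu b)))⁻¹ with hτ
  have hτ2 : ∀ x : F, τ (τ (pr (uu x))) ∈ UU F := by
    intro x
    have e1 : τ (τ (pr (uu x))) = pr (uu b) * (σ ^ 2) ((pr (uu b))⁻¹ * pr (uu x) * pr (uu b)) *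
        (pr (uu b))⁻¹ := by
      rw [hτ]
      simp only [MulAut.mul_apply, MulAut.conj_inv_apply, MulAut.conj_apply, pow_two]
      congr 3
      group
    rw [e1]
    have hbU : pr (uu b) ∈ UU F := ⟨b, rfl⟩
    refine (UU F).mul_mem ((UU F).mul_mem hbU ?_) ((UU F).inv_mem hbU)
    rw [← hσ2]
    exact (UU F).mul_mem ((UU F).mul_mem ((UU F).inv_mem hbU) ⟨x, rfl⟩) hbU
  have h11 : M' 1 1 = 0 := by
    have h1 := hτ2 1
    rw [hconj, MulAut.mul_apply, MulAut.mul_apply, ee_uu, conj_pr, conj_uu] at h1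
    have e2 : mk2 (1 - M' 0 0 * M' 1 0 * ((c : F) * φ 1)) (M' 0 0 * M' 0 0 * ((c : F) * φ 1))
        (-(M' 1 0 * M' 1 0 * ((c : F) * φ 1))) (1 + M' 0 0 * M' 1 0 * ((c : F) * φ 1))
        (by ring) = vv (-(M' 1 0 * M' 1 0 * ((c : F) * φ 1))) := by
      unfold vv
      apply mk2_congr
      · rw [h00]; ring
      · rw [h00]; ring
      · rfl
      · rw [h00]; ring
    rw [e2, ee_vv, conj_pr, conj_vv, pr_mem_UU] at h1
    have h3 : M' 1 1 * M' 1 1 * (((c⁻¹ : Fˣ) : F) * φ (-(M' 1 0 * M' 1 0 * ((c : F) * φ 1)))) = 0 :=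
      h1.1
    have h4 : ((c⁻¹ : Fˣ) : F) * φ (-(M' 1 0 * M' 1 0 * ((c : F) * φ 1))) ≠ 0 := by
      refine mul_ne_zero (Units.ne_zero _) ?_
      rw [map_ne_zero_iff φ φ.injective, neg_ne_zero, h10, map_one, mul_one]
      exact mul_ne_zero (mul_ne_zero γ.ne_zero γ.ne_zero) c.ne_zero
    have h5 := (mul_eq_zero.1 h3).resolve_right h4
    rcases mul_eq_zero.1 h5 with h | h <;> exact h
  refine ⟨b, -(c * (γ * γ))⁻¹, ?_⟩
  intro N P hP00 hP01 hP10 hP11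
  rw [← hτ, hconj, MulAut.mul_apply, ee_pr, conj_pr]
  congr 1
  have hMm : M' = mk2 0 (-((γ⁻¹ : Fˣ) : F)) γ 0 (by linear_combination hγi) :=
    sl_ext h00 h01 h10 h11
  have hca : ((c⁻¹ : Fˣ) : F) * (c : F) = 1 := Units.inv_mul c
  rw [hMm, mk2_inv]
  apply sl_ext
  · rw [hP00, mul_00, mul_00, mul_01]
    change (0 * φ (N 0 0) + -((γ⁻¹ : Fˣ) : F) * (((c⁻¹ : Fˣ) : F) * φ (N 1 0))) * 0 +
      (0 * (c * φ (N 0 1)) + -((γ⁻¹ : Fˣ) : F) * φ (N 1 1)) * -(γ : F) = φ (N 1 1)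
    linear_combination φ (N 1 1) * hγi
  · rw [hP01, mul_01, mul_00, mul_01]
    change (0 * φ (N 0 0) + -((γ⁻¹ : Fˣ) : F) * (((c⁻¹ : Fˣ) : F) * φ (N 1 0))) *
      -(-((γ⁻¹ : Fˣ) : F)) +
      (0 * (c * φ (N 0 1)) + -((γ⁻¹ : Fˣ) : F) * φ (N 1 1)) * 0 =
      ((-(c * (γ * γ))⁻¹ : Fˣ) : F) * φ (N 1 0)
    rw [Units.val_neg, mul_inv, mul_inv, Units.val_mul, Units.val_mul]
    ring
  · rw [hP10, mul_10, mul_10, mul_11]
    change (γ * φ (N 0 0) + 0 * (((c⁻¹ : Fˣ) : F) * φ (N 1 0))) * 0 +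
      (γ * (c * φ (N 0 1)) + 0 * φ (N 1 1)) * -(γ : F) =
      (((-(c * (γ * γ))⁻¹)⁻¹ : Fˣ) : F) * φ (N 0 1)
    rw [inv_neg, inv_inv, Units.val_neg, Units.val_mul, Units.val_mul]
    ring
  · rw [hP11, mul_11, mul_10, mul_11]
    change (γ * φ (N 0 0) + 0 * (((c⁻¹ : Fˣ) : F) * φ (N 1 0))) * -(-((γ⁻¹ : Fˣ) : F)) +
      (γ * (c * φ (N 0 1)) + 0 * φ (N 1 1)) * 0 = φ (N 0 0)
    linear_combination φ (N 0 0) * hγi

end Pool.ENR
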