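import Pool.Agent.H36.ENR.Stmts2
import Pool.Agent.H81.ENG.AltLaw

/-! Row UT0 of board enr. -/

set_option autoImplicit false

namespace Pool.ENR

open Pool.Agent.H81.ENG Pool.Agent.H55.NEU

theorem ut0_thm (hTRC : TRCStmt) : UT0Stmt := by
  intro F _ _ p hp _ t hp2 ht d hd
  by_contra hnd
  obtain ⟨m, hm⟩ : ∃ m : F, m = -t := ⟨_, rfl⟩
  have hm0 : m ≠ 0 := by rw [hm]; exact neg_ne_zero.2 ht
  have hmi : m * m⁻¹ = 1 := mul_inv_cancel₀ hm0
  obtain ⟨A, hA⟩ : ∃ A : SL2 F, A = mk2 0 (-m) m⁻¹ 0 (by linear_combination hmi) := ⟨_, rfl⟩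
  obtain ⟨y, hy⟩ : ∃ y : PS F, y = pr (uu m) := ⟨_, rfl⟩
  obtain ⟨a, ha⟩ : ∃ a : PS F, a = pr A := ⟨_, rfl⟩
  have hut : pr (uu t) = y⁻¹ := by
    rw [hy, ← map_inv, uu_inv, hm, neg_neg]
  have haa : a * a = 1 := by
    rw [ha, ← map_mul, ← map_one (Pool.Agent.H55.NEU.pr (F := F)), pr_eq_iff]
    refine ⟨-1, by ring, ?_⟩
    rw [hA, mk2_mul]
    intro i j
    fin_cases i <;> fin_cases j
    · change (1 : F) = -1 * (0 * 0 + -m * m⁻¹)
      linear_combination -hmi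
    · change (0 : F) = -1 * (0 * -m + -m * 0)
      ring
    · change (0 : F) = -1 * (m⁻¹ * 0 + 0 * m⁻¹)
      ring
    · change (1 : F) = -1 * (m⁻¹ * -m + 0 * 0)
      linear_combination -hmi
  have hB : A * uu m = mk2 0 (-m) m⁻¹ 1 (by linear_combination hmi) := by
    rw [hA]
    unfold uu
    rw [mk2_mul]
    apply mk2_congr
    · ring
    · ring
    · ring
    · linear_combination hmi
  have hay : (a * y) ^ 3 = 1 := by
    rw [ha, hy, ← map_mul, ← map_pow, ← map_one (Pool.Agent.H55.NEU.pr (F := F)), pr_eq_iff, hB, pow_succ, pow_two]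
    refine ⟨-1, by ring, ?_⟩
    rw [mk2_mul, mk2_mul]
    intro i j
    fin_cases i <;> fin_cases j
    · change (1 : F) = -1 * ((0 * 0 + -m * m⁻¹) * 0 + (0 * -m + -m * 1) * m⁻¹)
      linear_combination -hmi
    · change (0 : F) = -1 * ((0 * 0 + -m * m⁻¹) * -m + (0 * -m + -m * 1) * 1)
      linear_combination m * hmi
    · change (0 : F) = -1 * ((m⁻¹ * 0 + 1 * m⁻¹) * 0 + (m⁻¹ * -m + 1 * 1) * m⁻¹)
      linear_combination (-m⁻¹) * hmi
    · change (1 : F) = -1 * ((m⁻¹ * 0 + 1 * m⁻¹) * -m + (m⁻¹ * -m + 1 * 1) * 1)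
      linear_combination (-2) * hmi
  obtain ⟨x, hx⟩ : ∃ x : PS F, x = a * (y⁻¹ * a * y) := ⟨_, rfl⟩
  have htr := trefoil_rel haa hay
  rw [← hx] at htr
  rw [hut] at hd
  have hpow : ∀ n : ℕ, pr (uu m) ^ n = pr (uu ((n : F) * m)) := by
    intro n
    induction n with
    | zero => rw [pow_zero, Nat.cast_zero, zero_mul, uu_zero, map_one]
    | succ n ih =>
      rw [pow_succ, ih, ← map_mul, uu_mul]
      congr 2
      push_cast
      ring
  have hyp : y ^ p = 1 := by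
    rw [hy, hpow, CharP.cast_eq_zero, zero_mul, uu_zero, map_one]
  have hfix : ((MulAut.conj y⁻¹) ^ ((p : ℤ) ^ 0)) x = x := by
    refine L.rel hd hp.1 (N := 1) ?_ one_pos (i := 2) ?_ ?_ (a := 0) ?_
    · rw [pow_one, zpow_natCast, ← map_pow, inv_pow, hyp, inv_one, map_one]
      rfl
    · rw [Function.iterate_one]
      have e1 : ((MulAut.conj y⁻¹) ^ (2 : ℤ)) x = (y ^ 2)⁻¹ * x * y ^ 2 := by
        rw [← map_zpow, MulAut.conj_apply, zpow_ofNat, inv_pow, inv_inv]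
      rw [e1, ← htr]
      unfold ef
      rw [MulAut.conj_apply, inv_inv]
    · intro h
      have h1 : p ∣ 2 := by exact_mod_cast h
      have h2 := (Nat.dvd_prime Nat.prime_two).1 h1
      rcases h2 with h2 | h2
      · exact hp.1.one_lt.ne' h2
      · exact hp2 h2
    · rw [zero_add, pow_one]
      exact hnd
  rw [pow_zero, zpow_one, MulAut.conj_apply, inv_inv] at hfix
  have hyx : y * x = x * y := by
    calc y * x = y * (y⁻¹ * x * y) := by rw [hfix]
      _ = x * y := by group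
  rw [hx] at hyx
  have hya := hTRC (PS F) a y y haa hay rfl hyx
  have hmem : pr (A * uu m * A⁻¹) ∈ UU F := by
    refine ⟨m, ?_⟩
    rw [map_mul, map_mul, map_inv, ← ha, ← hy, ← hya]
    group
  rw [conj_uu, pr_mem_UU] at hmem
  have h1 : -(A 1 0 * A 1 0 * m) = 0 := hmem.1
  have h2 : A 1 0 = m⁻¹ := by rw [hA]; rfl
  rw [h2] at h1
  have h3 : m⁻¹ * m⁻¹ * m ≠ 0 :=
    mul_ne_zero (mul_ne_zero (inv_ne_zero hm0) (inv_ne_zero hm0)) hm0
  exact h3 (neg_eq_zero.1 h1)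

end Pool.ENR
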