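import Pool.Agent.H29.ENR.Stmts11

/-!
# Row Q7M of the board `enr`: braid partners of a 2x2 matrix over a finite field
-/

set_option autoImplicit false

namespace Pool.ENR

open Pool.Agent.H81.ENG Pool.Agent.H55.NEU

/-- The quadratic equation. -/
private theorem Q7M_solve (F : Type) [Field F] [Finite F] (h2 : (2 : F) ≠ 0) (δ τ : F)
    (hD : τ ^ 2 ≠ 4 * δ) :
    ∃ x z : F, x ^ 2 + τ * (z - 1) * x + δ * z ^ 2 + (δ - τ ^ 2) * z + δ = 0 := by
  have := Fintype.ofFinite F
  have hodd : Fintype.card F % 2 = 1 := by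
    refine FiniteField.odd_card_of_char_ne_two ?_
    intro h
    apply h2
    have := ringChar.Nat.cast_ringChar (R := F)
    rw [h] at this
    exact_mod_cast this
  have hD' : -(τ ^ 2 - 4 * δ) ≠ 0 := by
    intro h
    apply hD
    linear_combination -h
  obtain ⟨w, z, hwz⟩ := FiniteField.exists_root_sum_quadratic (R := F)
    (f := Polynomial.X ^ 2)
    (g := Polynomial.C (-(τ ^ 2 - 4 * δ)) * Polynomial.X ^ 2 +
      Polynomial.C (-(2 * τ ^ 2 - 4 * δ)) * Polynomial.X + Polynomial.C (-(τ ^ 2 - 4 * δ)))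
    (Polynomial.degree_X_pow 2) (Polynomial.degree_quadratic hD') hodd
  refine ⟨(τ * (1 - z) + w) / 2, z, ?_⟩
  simp only [Polynomial.eval_add, Polynomial.eval_mul, Polynomial.eval_pow, Polynomial.eval_X,
    Polynomial.eval_C] at hwz
  have h4 : (4 : F) ≠ 0 := by
    have : (4 : F) = 2 * 2 := by norm_num
    rw [this]
    exact mul_ne_zero h2 h2
  field_simp
  linear_combination hwz

/-- The case of a companion matrix. -/
private theorem Q7M_comp (F : Type) [Field F] [Finite F] (h2 : (2 : F) ≠ 0) (δ τ : F)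
    (h0 : δ ≠ 0) (ht : τ ≠ 0) (hD : τ ^ 2 ≠ 4 * δ) (h3 : τ ^ 2 ≠ 3 * δ) :
    ∃ B : Matrix (Fin 2) (Fin 2) F, B.det = δ ∧
      !![0, -δ; 1, τ] * B * !![0, -δ; 1, τ] = B * !![0, -δ; 1, τ] * B ∧
      ∀ (n : ℕ) (x : F), (!![0, -δ; 1, τ] : Matrix (Fin 2) (Fin 2) F) ^ n * B =
        x • (B * !![0, -δ; 1, τ] ^ n) →
        ∃ y : F, (!![0, -δ; 1, τ] : Matrix (Fin 2) (Fin 2) F) ^ n = y • 1 := by
  obtain ⟨x, z, hq⟩ := Q7M_solve F h2 δ τ hD
  set A : Matrix (Fin 2) (Fin 2) F := !![0, -δ; 1, τ] with hA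
  set B : Matrix (Fin 2) (Fin 2) F := !![x, δ * (1 + z) - τ ^ 2 + τ * x; z, τ - x] with hB
  have hdA : A.det = δ := by
    rw [hA, Matrix.det_fin_two_of]
    ring
  have hdB : B.det = δ := by
    rw [hB, Matrix.det_fin_two_of]
    linear_combination -hq
  have htB : B.trace = τ := by
    rw [hB, Matrix.trace_fin_two_of]
    ring
  have hbraid : A * B * A = B * A * B := by
    ext i j
    fin_cases i <;> fin_cases j
    · simp [hA, hB, Matrix.mul_apply, Fin.sum_univ_two]
      linear_combination -τ * hq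
    · simp [hA, hB, Matrix.mul_apply, Fin.sum_univ_two]
      linear_combination -δ * hq
    · simp [hA, hB, Matrix.mul_apply, Fin.sum_univ_two]
      linear_combination hq
    · simp [hA, hB, Matrix.mul_apply, Fin.sum_univ_two]
      ring
  have hA2 : A * A = τ • A - δ • (1 : Matrix (Fin 2) (Fin 2) F) := by
    ext i j
    fin_cases i <;> fin_cases j <;>
      simp [hA, Matrix.mul_apply, Fin.sum_univ_two] <;> ring
  have hpow : ∀ n : ℕ, ∃ u w : F, A ^ n = u • (1 : Matrix (Fin 2) (Fin 2) F) + w • A := by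
    intro n
    induction n with
    | zero => exact ⟨1, 0, by simp⟩
    | succ n ih =>
      obtain ⟨u, w, h⟩ := ih
      refine ⟨-(w * δ), u + w * τ, ?_⟩
      rw [pow_succ, h, add_mul, Matrix.smul_mul, Matrix.smul_mul, one_mul, hA2, smul_sub,
        smul_smul, smul_smul, add_smul, neg_smul]
      abel
  refine ⟨B, hdB, hbraid, ?_⟩
  intro n c hc
  have hdN : (A ^ n).det ≠ 0 := by
    rw [Matrix.det_pow, hdA]
    exact pow_ne_zero _ h0
  have hu : IsUnit (A ^ n).det := hdN.isUnit
  have htr : B.trace = c * B.trace := by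
    have h1 : A ^ n * B * (A ^ n)⁻¹ = c • B := by
      rw [hc, Matrix.smul_mul, Matrix.mul_assoc, Matrix.mul_nonsing_inv _ hu, mul_one]
    have h2' : (A ^ n * B * (A ^ n)⁻¹).trace = B.trace := by
      rw [Matrix.trace_mul_comm, ← Matrix.mul_assoc, Matrix.nonsing_inv_mul _ hu, one_mul]
    rw [h1, Matrix.trace_smul, smul_eq_mul] at h2'
    exact h2'.symm
  have hc1 : c = 1 := by
    rw [htB] at htr
    have : (c - 1) * τ = 0 := by linear_combination -htr
    rcases mul_eq_zero.1 this with h | h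
    · exact sub_eq_zero.1 h
    · exact absurd h ht
  rw [hc1, one_smul] at hc
  obtain ⟨u, w, huw⟩ := hpow n
  by_cases hw : w = 0
  · refine ⟨u, ?_⟩
    rw [huw, hw, zero_smul, add_zero]
  · exfalso
    have hcomm : A * B = B * A := by
      rw [huw, add_mul, mul_add, Matrix.smul_mul, Matrix.mul_smul, one_mul, mul_one,
        Matrix.smul_mul, Matrix.mul_smul] at hc
      have h5 := add_left_cancel hc
      exact smul_right_injective _ hw h5
    have hdAB : IsUnit (A * B).det := by
      rw [Matrix.det_mul, hdA, hdB]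
      exact (mul_ne_zero h0 h0).isUnit
    have hEq : A = B := by
      have h6 : A * B * A = A * B * B := by
        rw [hbraid, ← hcomm]
      have h7 := congrArg (fun M => (A * B)⁻¹ * M) h6
      simp only [← Matrix.mul_assoc] at h7
      rw [Matrix.mul_assoc (A * B)⁻¹ A B, Matrix.nonsing_inv_mul _ hdAB, one_mul, one_mul] at h7
      exact h7
    have e1 := congrFun (congrFun hEq 0) 0
    have e2 := congrFun (congrFun hEq 1) 0
    have e3 := congrFun (congrFun hEq 0) 1
    simp [hA, hB] at e1 e2 e3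
    apply h3
    rw [← e1, ← e2] at e3
    linear_combination e3

/-- Row Q7M. -/
theorem q7m_thm : Q7MStmt := by
  intro F _ _ M h2 h0 ht hD h3
  -- a cyclic vector
  have hP : ∃ P : Matrix (Fin 2) (Fin 2) F, P.det ≠ 0 ∧
      M * P = P * !![0, -M.det; 1, M.trace] := by
    obtain ⟨a, b, c, d, rfl⟩ : ∃ a b c d : F, M = !![a, b; c, d] :=
      ⟨M 0 0, M 0 1, M 1 0, M 1 1, by ext i j; fin_cases i <;> fin_cases j <;> rfl⟩
    rw [Matrix.trace_fin_two_of] at hD
    rw [Matrix.det_fin_two_of] at hD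
    rw [Matrix.det_fin_two_of, Matrix.trace_fin_two_of]
    by_cases hc : c = 0
    · by_cases hb : b = 0
      · subst hc hb
        refine ⟨!![1, a; 1, d], ?_, ?_⟩
        · rw [Matrix.det_fin_two_of]
          intro h
          apply hD
          have : a = d := by linear_combination -h
          rw [this]
          ring
        · ext i j
          fin_cases i <;> fin_cases j <;>
            simp [Matrix.mul_apply, Fin.sum_univ_two] <;> ring
      · refine ⟨!![0, b; 1, d], ?_, ?_⟩
        · rw [Matrix.det_fin_two_of]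
          intro h
          apply hb
          linear_combination -h
        · ext i j
          fin_cases i <;> fin_cases j <;>
            simp [Matrix.mul_apply, Fin.sum_univ_two] <;> ring
    · refine ⟨!![1, a; 0, c], ?_, ?_⟩
      · rw [Matrix.det_fin_two_of]
        intro h
        apply hc
        linear_combination h
      · ext i j
        fin_cases i <;> fin_cases j <;>
          simp [Matrix.mul_apply, Fin.sum_univ_two] <;> ring
  obtain ⟨P, hPd, hMP⟩ := hP
  have hu : IsUnit P.det := hPd.isUnit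
  set A : Matrix (Fin 2) (Fin 2) F := !![0, -M.det; 1, M.trace] with hA
  have hPQ : P * P⁻¹ = 1 := Matrix.mul_nonsing_inv _ hu
  have hQP : P⁻¹ * P = 1 := Matrix.nonsing_inv_mul _ hu
  have hM : M = P * A * P⁻¹ := by
    rw [← hMP, Matrix.mul_assoc, hPQ, mul_one]
  obtain ⟨B, hB1, hB2, hB3⟩ := Q7M_comp F h2 M.det M.trace h0 ht hD h3
  rw [← hA] at hB2
  have hconj : ∀ X Y : Matrix (Fin 2) (Fin 2) F,
      (P * X * P⁻¹) * (P * Y * P⁻¹) = P * (X * Y) * P⁻¹ := by
    intro X Y
    calc (P * X * P⁻¹) * (P * Y * P⁻¹) = P * X * (P⁻¹ * P) * Y * P⁻¹ := by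
          simp only [Matrix.mul_assoc]
      _ = P * (X * Y) * P⁻¹ := by
          rw [hQP, mul_one]
          simp only [Matrix.mul_assoc]
  have hpow : ∀ n : ℕ, M ^ n = P * A ^ n * P⁻¹ := by
    intro n
    induction n with
    | zero => rw [pow_zero, pow_zero, mul_one, hPQ]
    | succ n ih =>
      rw [pow_succ, ih, pow_succ]
      conv_lhs => rw [hM]
      rw [hconj]
  refine ⟨P * B * P⁻¹, ?_, ?_, ?_⟩
  · rw [Matrix.det_mul, Matrix.det_mul, hB1, mul_comm P.det, mul_assoc, ← Matrix.det_mul, hPQ,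
      Matrix.det_one, mul_one]
  · conv_lhs => rw [hM]
    conv_rhs => rw [hM]
    rw [hconj, hconj, hconj, hconj, hB2]
  · intro n x hx
    have h1 : A ^ n * B = x • (B * A ^ n) := by
      rw [hpow n, hconj, hconj, ← Matrix.smul_mul, ← Matrix.mul_smul] at hx
      have h5 := congrArg (fun N => P⁻¹ * N * P) hx
      have key : ∀ N : Matrix (Fin 2) (Fin 2) F, P⁻¹ * (P * N * P⁻¹) * P = N := by
        intro N
        calc P⁻¹ * (P * N * P⁻¹) * P = (P⁻¹ * P) * N * (P⁻¹ * P) := by
              simp only [Matrix.mul_assoc]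
          _ = N := by rw [hQP, one_mul, mul_one]
      rw [key, key] at h5
      exact h5
    obtain ⟨y, hy⟩ := hB3 n x h1
    refine ⟨y, ?_⟩
    rw [hpow n]
    change P * (!![0, -M.det; 1, M.trace] ^ n) * P⁻¹ = _
    rw [hy, Matrix.mul_smul, Matrix.smul_mul, mul_one, hPQ]

end Pool.ENR
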